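import Mathlib
import Pool.Agent.Q33.SP.Ell2

/-!
MP_45e720_ag: projective varieties without nonconstant holomorphic maps from complex tori contain no
nonconstant entire curves which are sums of few high powers with polynomial coefficients.
-/

set_option autoImplicit false

namespace Pool.Agent.Results.MP_45e720_ag.EllipticCurvesThroughPoints

open MvPolynomial Filter Topology Pool.Agent.Q33.SP

/-- Let `X` be the projective variety given by forms `F` of degree at most `D` (any number of them; it
may be singular and reducible), `r ≥ 0`, `M ≥ N = (number of monomials of degree D in r variables)²`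
and let `E = ℂ / Λ` be any elliptic curve.

(1) Let `f` be a nonconstant entire curve in `X` whose homogeneous coordinates are
`∑_{j < r} V_{j i} k_j ^ M` with polynomials `V_{j i}` and entire functions `k_j`. For all `z`
outside the zeros of an entire function `S ≠ 0` there is a nonconstant holomorphic map from `E` to
`X` through the point `f z`.

(2) Let `f` be a holomorphic map from the punctured disc to `X` whose homogeneous coordinates are near
the origin `∑_{j < r} V_{j i} k_j ^ M` with meromorphic germs `V_{j i}` and functions `k_j`
holomorphic outside the origin. If `f` has an essential singularity at the origin, then there is a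
nonconstant holomorphic map from `E` to `X` through `f z` for all `z` in a punctured disc around the
origin outside a set without limit points in this punctured disc.

(3) So if every holomorphic map from `E` to `X` is constant (for instance if every holomorphic map
from a complex torus to `X` is constant) then all these entire curves are constant and all these maps
from the punctured disc extend holomorphically to the disc. -/
theorem result {n D r M : ℕ} {ι : Type} (F : ι → MvPolynomial (Fin (n + 1)) ℂ)
    (hF : ∀ i, ∃ d, d ≤ D ∧ (F i).IsHomogeneous d) (hM : ((r + D - 1).choose D) ^ 2 ≤ M)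
    (L : PeriodPair) :
    (∀ f, EntPol r M F f → ∃ S : ℂ → ℂ, Differentiable ℂ S ∧ S ≠ 0 ∧ ∀ z, S z ≠ 0 →
      ∃ h0 : f z ≠ 0, EllThrough L F (Projectivization.mk ℂ (f z) h0)) ∧
    (∀ f, PunctPow r M F f → Ess f → ∃ δ > 0, ∀ z0 : ℂ, z0 ≠ 0 → ‖z0‖ < δ →
      ∀ᶠ z in 𝓝[≠] z0, ∃ h0 : f z ≠ 0, EllThrough L F (Projectivization.mk ℂ (f z) h0)) ∧
    ((∀ φ, EllMap L F φ → ∀ z z', φ z = φ z') →
      (∀ f, ¬ EntPol r M F f) ∧ ∀ f, PunctPow r M F f → ¬ Ess f) := by
  refine ⟨fun f hf => ell_of_ent hF hM L hf, fun f hf hess => ell_of_punct hF hM L hf hess,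
    fun h => ⟨fun f hf => ?_, fun f hf hess => ?_⟩⟩
  · obtain ⟨S, -, hS, h1⟩ := ell_of_ent hF hM L hf
    obtain ⟨z, hz⟩ := Function.ne_iff.1 hS
    obtain ⟨-, φ, hφ, -, τ, τ', hne⟩ := h1 z hz
    exact hne (h φ hφ τ τ')
  · obtain ⟨δ, hδ, h1⟩ := ell_of_punct hF hM L hf hess
    have hz : ((δ / 2 : ℝ) : ℂ) ≠ 0 := by
      rw [Ne, Complex.ofReal_eq_zero]
      positivity
    have h2 := h1 ((δ / 2 : ℝ) : ℂ) hz (by
      rw [Complex.norm_real, Real.norm_of_nonneg (by positivity)]
      linarith)
    obtain ⟨z, -, φ, hφ, -, τ, τ', hne⟩ := h2.exists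
    exact hne (h φ hφ τ τ')

end Pool.Agent.Results.MP_45e720_ag.EllipticCurvesThroughPoints
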