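import Pool.Agent.Q72.SH.RigP

/-!
MP_45e720_ag, Q1: projective algebraic sets that receive no nonconstant holomorphic maps from tori
are those in which all entire curves are rigid.
-/

set_option autoImplicit false

namespace Pool.Agent.Results.MP_45e720_ag.RigidEntireCurves

open MvPolynomial
open Pool.Agent.W602.GT Pool.Agent.TH143.GT Pool.Agent.Q72.SH
open Pool.Agent.W603.BPR (EntireCurve)

/-- For all `n` and `d` there is a number `M` such that the following is true for all projective
algebraic sets `X` in `P^n` given by a set `E` of forms of degrees at most `d`.

(1) If every holomorphic map from a one-dimensional complex torus to `X` is constant, then no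
nonconstant entire curve in `X` (given by homogeneous coordinates) factors through such a torus.
(2) The following are equivalent: no nonconstant entire curve in `X` factors through a
one-dimensional complex torus; all nonconstant entire curves `f` in `X` are rigid, and all
translations that leave the intersections of `f` with the coordinate hyperplanes invariant are
translations by rational multiples of one complex number; there is no nonconstant entire curve in `X`
whose intersections with the coordinate hyperplanes are invariant under a lattice. (3) If these
conditions hold then among any `M + 1` nonconstant entire curves in `X` that have the same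
intersections, with multiplicities, with the coordinate hyperplanes, there are two that differ by an
invertible diagonal matrix of constants. -/
theorem result (n d : ℕ) : ∃ M : ℕ, ∀ E : Set (MvPolynomial (Fin (n + 1)) ℂ),
    (∀ F ∈ E, ∃ e ≤ d, F.IsHomogeneous e) →
    (NoTorusMaps E → NoTor E) ∧
    List.TFAE [NoTor E, ∀ f, EntireCurve (Ideal.span E) 1 f → Rigid E 1 f ∧ RatPeriods f,
      ∀ f, EntireCurve (Ideal.span E) 1 f → ¬ Lattice f] ∧
    (NoTor E → ∀ g : Fin (M + 1) → ℂ → Fin (n + 1) → ℂ,
      (∀ s, EntireCurve (Ideal.span E) 1 (g s)) →
      (∀ s t, SameSections (g s) (g t)) → ∃ s t, s ≠ t ∧ DiagEq (g s) (g t)) := by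
  obtain ⟨M, hM⟩ := diag_of_noTor n d
  exact ⟨M, fun E hE => ⟨noTor_of_maps, proj_tfae hE, fun h g hg hs => hM E hE h g hg hs⟩⟩

end Pool.Agent.Results.MP_45e720_ag.RigidEntireCurves
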